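import Mathlib

/-!
# Paths as sets: a small calculus
-/

set_option autoImplicit false

namespace Pool.Agent.Run7.h496

open SimpleGraph

variable {V : Type*} {G : SimpleGraph V}

/-- There is a path of length `n` from `u` to `v` with vertex set exactly `A`. -/
def Pt (G : SimpleGraph V) (A : Set V) (u v : V) (n : ℕ) : Prop :=
  ∃ p : G.Walk u v, p.IsPath ∧ p.length = n ∧ ∀ w, w ∈ p.support ↔ w ∈ A

/-- The graph contains a totally odd subdivision of `K_4`. -/
def HasTOKS (G : SimpleGraph V) : Prop :=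
  ∃ (a : Fin 4 → V) (P : ∀ i j : Fin 4, G.Walk (a i) (a j)),
    Function.Injective a ∧
    (∀ i j : Fin 4, i < j → (P i j).IsPath ∧ Odd (P i j).length) ∧
    (∀ i j m : Fin 4, i < j → a m ∈ (P i j).support → m = i ∨ m = j) ∧
    (∀ i j k l : Fin 4, i < j → k < l → (i, j) ≠ (k, l) →
      ∀ x, x ∈ (P i j).support → x ∈ (P k l).support → ∃ m, x = a m)

namespace Pt

variable {A B : Set V} {u v w : V} {n m : ℕ}

theorem left (h : Pt G A u v n) : u ∈ A := by
  obtain ⟨p, -, -, h3⟩ := h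
  exact (h3 u).1 p.start_mem_support

theorem right (h : Pt G A u v n) : v ∈ A := by
  obtain ⟨p, -, -, h3⟩ := h
  exact (h3 v).1 p.end_mem_support

theorem nil (u : V) : Pt G {u} u u 0 := ⟨Walk.nil, by simp, rfl, by simp⟩

theorem edge (h : G.Adj u v) : Pt G {u, v} u v 1 :=
  ⟨Walk.cons h Walk.nil, by simp [h.ne], rfl, by simp⟩

theorem symm (h : Pt G A u v n) : Pt G A v u n := by
  obtain ⟨p, h1, h2, h3⟩ := h
  exact ⟨p.reverse, h1.reverse, by simp [h2], by simpa using h3⟩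

theorem congr (h : Pt G A u v n) (hAB : A = B) (hnm : n = m) : Pt G B u v m := by
  subst hAB hnm; exact h

theorem append (h1 : Pt G A u v n) (h2 : Pt G B v w m) (h : ∀ x ∈ A, x ∈ B → x = v) :
    Pt G (A ∪ B) u w (n + m) := by
  obtain ⟨p, p1, p2, p3⟩ := h1
  obtain ⟨q, q1, q2, q3⟩ := h2
  refine ⟨p.append q, ?_, by simp [p2, q2], ?_⟩
  · rw [Walk.isPath_def, Walk.support_append, List.nodup_append]
    refine ⟨p1.support_nodup, q1.support_nodup.tail, ?_⟩
    intro x hx y hy hxy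
    subst hxy
    have hyB : x ∈ q.support := List.mem_of_mem_tail hy
    have := h x ((p3 x).1 hx) ((q3 x).1 hyB)
    subst this
    have h5 := q1.support_nodup
    rw [← Walk.cons_tail_support] at h5
    exact (List.nodup_cons.1 h5).1 hy
  · intro x
    rw [Walk.mem_support_append_iff, p3, q3]
    rfl

theorem split (h : Pt G A u v n) (hw : w ∈ A) :
    ∃ A1 A2 n1 n2, Pt G A1 u w n1 ∧ Pt G A2 w v n2 ∧ n1 + n2 = n ∧ A1 ∪ A2 = A ∧
      ∀ x ∈ A1, x ∈ A2 → x = w := by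
  classical
  obtain ⟨p, h1, h2, h3⟩ := h
  have hw' := (h3 w).2 hw
  refine ⟨{x | x ∈ (p.takeUntil w hw').support}, {x | x ∈ (p.dropUntil w hw').support},
    (p.takeUntil w hw').length, (p.dropUntil w hw').length,
    ⟨_, h1.takeUntil hw', rfl, fun _ => Iff.rfl⟩, ⟨_, h1.dropUntil hw', rfl, fun _ => Iff.rfl⟩,
    ?_, ?_, ?_⟩
  · rw [← Walk.length_append, Walk.take_spec, h2]
  · ext x
    rw [← h3 x]
    conv_rhs => rw [← Walk.take_spec p hw']
    rw [Walk.mem_support_append_iff]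
    rfl
  · intro x hx hx'
    rw [← Walk.take_spec p hw'] at h1
    by_contra hne
    have h5 := h1.support_nodup
    rw [Walk.support_append, List.nodup_append] at h5
    have h6 : x ∈ (p.dropUntil w hw').support := hx'
    rw [← Walk.cons_tail_support, List.mem_cons] at h6
    rcases h6 with h6 | h6
    · exact hne h6
    · exact h5.2.2 x hx x h6 rfl

theorem eq_of_zero (h : Pt G A u v 0) : u = v := by
  obtain ⟨p, h1, h2, h3⟩ := h
  exact Walk.eq_of_length_eq_zero h2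

theorem len_zero (h : Pt G A u u n) : n = 0 := by
  obtain ⟨p, h1, h2, h3⟩ := h
  have h4 := Walk.isPath_iff_nil.1 h1
  rw [← h2]
  exact Walk.length_eq_zero_iff.2 h4

theorem ne_of_odd (h : Pt G A u v n) (hn : Odd n) : u ≠ v := by
  rintro rfl
  rw [h.len_zero] at hn
  exact absurd hn (by decide)

theorem len_pos (h : Pt G A u v n) (huv : u ≠ v) : 0 < n := by
  rcases Nat.eq_zero_or_pos n with rfl | hn
  · exact absurd h.eq_of_zero huv
  · exact hn

/-- Every walk contains a path with the same ends. -/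
theorem of_walk (p : G.Walk u v) : ∃ A n, Pt G A u v n ∧ ∀ x ∈ A, x ∈ p.support := by
  classical
  exact ⟨{x | x ∈ p.bypass.support}, _, ⟨p.bypass, p.bypass_isPath, rfl, fun _ => Iff.rfl⟩,
    fun x hx => p.support_bypass_subset_support hx⟩

/-- The first vertex of a path in a set. -/
theorem first (h : Pt G A u v n) {Y : Set V} {t : V} (ht : t ∈ A) (htY : t ∈ Y) :
    ∃ w B m, w ∈ Y ∧ Pt G B u w m ∧ B ⊆ A ∧ m ≤ n ∧ ∀ x ∈ B, x ∈ Y → x = w := by
  induction n using Nat.strong_induction_on generalizing A v t with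
  | _ n ih =>
    by_cases hc : ∀ x ∈ A, x ∈ Y → x = v
    · have := hc t ht htY
      subst this
      exact ⟨t, A, n, htY, h, subset_rfl, le_rfl, hc⟩
    · push Not at hc
      obtain ⟨x, hxA, hxY, hxv⟩ := hc
      obtain ⟨A1, A2, n1, n2, h1, h2, h3, h4, h5⟩ := h.split hxA
      have hn2 := h2.len_pos hxv
      obtain ⟨w, B, m, hw, hB, hBA, hm, hx⟩ := ih n1 (by omega) h1 h1.right hxY
      exact ⟨w, B, m, hw, hB, hBA.trans (h4 ▸ Set.subset_union_left), by omega, hx⟩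

/-- Prepending an edge. -/
theorem cons (h : Pt G A u v n) (ha : G.Adj w u) (hw : w ∉ A) :
    Pt G (insert w A) w v (n + 1) := by
  have := (Pt.edge ha).append h (by
    rintro x (rfl | rfl) hx
    · exact absurd hx hw
    · rfl)
  refine this.congr ?_ (by ring)
  ext x
  simp only [Set.mem_union, Set.mem_insert_iff, Set.mem_singleton_iff]
  constructor
  · rintro ((rfl | rfl) | h2)
    · left; rfl
    · right; exact h.left
    · right; exact h2
  · rintro (rfl | h2)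
    · left; left; rfl
    · right; exact h2

/-- Appending an edge. -/
theorem concat (h : Pt G A u v n) (ha : G.Adj v w) (hw : w ∉ A) :
    Pt G (insert w A) u w (n + 1) := (h.symm.cons ha.symm hw).symm

end Pt

/-- Construction of a totally odd subdivision from its six paths. -/
theorem HasTOKS.of_paths {a b c d : V} {Aab Aac Aad Abc Abd Acd : Set V}
    {nab nac nad nbc nbd ncd : ℕ}
    (hab : Pt G Aab a b nab) (hac : Pt G Aac a c nac) (had : Pt G Aad a d nad)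
    (hbc : Pt G Abc b c nbc) (hbd : Pt G Abd b d nbd) (hcd : Pt G Acd c d ncd)
    (oab : Odd nab) (oac : Odd nac) (oad : Odd nad) (obc : Odd nbc) (obd : Odd nbd)
    (ocd : Odd ncd)
    (d1 : ∀ x ∈ Aab, x ∉ Acd) (d2 : ∀ x ∈ Aac, x ∉ Abd) (d3 : ∀ x ∈ Aad, x ∉ Abc)
    (a1 : ∀ x ∈ Aab, x ∈ Aac → x = a) (a2 : ∀ x ∈ Aab, x ∈ Aad → x = a)
    (a3 : ∀ x ∈ Aac, x ∈ Aad → x = a)
    (b1 : ∀ x ∈ Aab, x ∈ Abc → x = b) (b2 : ∀ x ∈ Aab, x ∈ Abd → x = b)
    (b3 : ∀ x ∈ Abc, x ∈ Abd → x = b)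
    (c1 : ∀ x ∈ Aac, x ∈ Abc → x = c) (c2 : ∀ x ∈ Aac, x ∈ Acd → x = c)
    (c3 : ∀ x ∈ Abc, x ∈ Acd → x = c)
    (e1 : ∀ x ∈ Aad, x ∈ Abd → x = d) (e2 : ∀ x ∈ Aad, x ∈ Acd → x = d)
    (e3 : ∀ x ∈ Abd, x ∈ Acd → x = d) : HasTOKS G := by
  have nab' := hab.ne_of_odd oab
  have nac' := hac.ne_of_odd oac
  have nad' := had.ne_of_odd oad
  have nbc' := hbc.ne_of_odd obc
  have nbd' := hbd.ne_of_odd obd
  have ncd' := hcd.ne_of_odd ocd
  have m1 := hab.left; have m2 := hab.right; have m3 := hac.left; have m4 := hac.right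
  have m5 := had.left; have m6 := had.right; have m7 := hbc.left; have m8 := hbc.right
  have m9 := hbd.left; have m10 := hbd.right; have m11 := hcd.left; have m12 := hcd.right
  have f1 : c ∉ Aab := fun h => d1 c h m11
  have f2 : d ∉ Aab := fun h => d1 d h m12
  have f3 : b ∉ Aac := fun h => d2 b h m9
  have f4 : d ∉ Aac := fun h => d2 d h m10
  have f5 : b ∉ Aad := fun h => d3 b h m7
  have f6 : c ∉ Aad := fun h => d3 c h m8
  have f7 : a ∉ Abc := fun h => d3 a m5 h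
  have f8 : d ∉ Abc := fun h => d3 d m6 h
  have f9 : a ∉ Abd := fun h => d2 a m3 h
  have f10 : c ∉ Abd := fun h => d2 c m4 h
  have f11 : a ∉ Acd := fun h => d1 a m1 h
  have f12 : b ∉ Acd := fun h => d1 b m2 h
  obtain ⟨pab, pab1, rfl, pab3⟩ := hab
  obtain ⟨pac, pac1, rfl, pac3⟩ := hac
  obtain ⟨pad, pad1, rfl, pad3⟩ := had
  obtain ⟨pbc, pbc1, rfl, pbc3⟩ := hbc
  obtain ⟨pbd, pbd1, rfl, pbd3⟩ := hbd
  obtain ⟨pcd, pcd1, rfl, pcd3⟩ := hcd
  refine ⟨![a, b, c, d], fun i j => match i, j with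
    | 0, 0 => Walk.nil | 1, 1 => Walk.nil | 2, 2 => Walk.nil | 3, 3 => Walk.nil
    | 0, 1 => pab | 0, 2 => pac | 0, 3 => pad | 1, 2 => pbc | 1, 3 => pbd | 2, 3 => pcd
    | 1, 0 => pab.reverse | 2, 0 => pac.reverse | 3, 0 => pad.reverse
    | 2, 1 => pbc.reverse | 3, 1 => pbd.reverse | 3, 2 => pcd.reverse, ?_, ?_, ?_, ?_⟩
  · have hinj : ∀ i j : Fin 4, (![a, b, c, d] : Fin 4 → V) i = ![a, b, c, d] j → i = j := by
      intro i j hij
      fin_cases i <;> fin_cases j <;> first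
        | rfl
        | exact absurd hij nab' | exact absurd hij nac' | exact absurd hij nad'
        | exact absurd hij nbc' | exact absurd hij nbd' | exact absurd hij ncd'
        | exact absurd hij.symm nab' | exact absurd hij.symm nac' | exact absurd hij.symm nad'
        | exact absurd hij.symm nbc' | exact absurd hij.symm nbd' | exact absurd hij.symm ncd'
    exact fun i j h => hinj i j h
  · intro i j hij
    fin_cases i <;> fin_cases j <;> first
      | (exfalso; revert hij; decide)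
      | exact ⟨pab1, oab⟩
      | exact ⟨pac1, oac⟩
      | exact ⟨pad1, oad⟩
      | exact ⟨pbc1, obc⟩
      | exact ⟨pbd1, obd⟩
      | exact ⟨pcd1, ocd⟩
  · intro i j m hij hm
    fin_cases i <;> fin_cases j <;> first
      | (exfalso; revert hij; decide)
      | (fin_cases m <;> first
        | exact Or.inl rfl
        | exact Or.inr rfl
        | exact absurd ((pab3 _).1 hm) f1
        | exact absurd ((pab3 _).1 hm) f2
        | exact absurd ((pac3 _).1 hm) f3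
        | exact absurd ((pac3 _).1 hm) f4
        | exact absurd ((pad3 _).1 hm) f5
        | exact absurd ((pad3 _).1 hm) f6
        | exact absurd ((pbc3 _).1 hm) f7
        | exact absurd ((pbc3 _).1 hm) f8
        | exact absurd ((pbd3 _).1 hm) f9
        | exact absurd ((pbd3 _).1 hm) f10
        | exact absurd ((pcd3 _).1 hm) f11
        | exact absurd ((pcd3 _).1 hm) f12)
  · intro i j k l hij hkl hne x hx1 hx2
    fin_cases i <;> fin_cases j <;> first
      | (exfalso; revert hij; decide)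
      | (fin_cases k <;> fin_cases l <;> first
        | (exfalso; revert hkl; decide)
        | (exfalso; revert hne; decide)
        | exact ⟨0, a1 _ ((pab3 _).1 hx1) ((pac3 _).1 hx2)⟩
        | exact ⟨0, a1 _ ((pab3 _).1 hx2) ((pac3 _).1 hx1)⟩
        | exact ⟨0, a2 _ ((pab3 _).1 hx1) ((pad3 _).1 hx2)⟩
        | exact ⟨0, a2 _ ((pab3 _).1 hx2) ((pad3 _).1 hx1)⟩
        | exact ⟨0, a3 _ ((pac3 _).1 hx1) ((pad3 _).1 hx2)⟩
        | exact ⟨0, a3 _ ((pac3 _).1 hx2) ((pad3 _).1 hx1)⟩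
        | exact ⟨1, b1 _ ((pab3 _).1 hx1) ((pbc3 _).1 hx2)⟩
        | exact ⟨1, b1 _ ((pab3 _).1 hx2) ((pbc3 _).1 hx1)⟩
        | exact ⟨1, b2 _ ((pab3 _).1 hx1) ((pbd3 _).1 hx2)⟩
        | exact ⟨1, b2 _ ((pab3 _).1 hx2) ((pbd3 _).1 hx1)⟩
        | exact ⟨1, b3 _ ((pbc3 _).1 hx1) ((pbd3 _).1 hx2)⟩
        | exact ⟨1, b3 _ ((pbc3 _).1 hx2) ((pbd3 _).1 hx1)⟩
        | exact ⟨2, c1 _ ((pac3 _).1 hx1) ((pbc3 _).1 hx2)⟩
        | exact ⟨2, c1 _ ((pac3 _).1 hx2) ((pbc3 _).1 hx1)⟩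
        | exact ⟨2, c2 _ ((pac3 _).1 hx1) ((pcd3 _).1 hx2)⟩
        | exact ⟨2, c2 _ ((pac3 _).1 hx2) ((pcd3 _).1 hx1)⟩
        | exact ⟨2, c3 _ ((pbc3 _).1 hx1) ((pcd3 _).1 hx2)⟩
        | exact ⟨2, c3 _ ((pbc3 _).1 hx2) ((pcd3 _).1 hx1)⟩
        | exact ⟨3, e1 _ ((pad3 _).1 hx1) ((pbd3 _).1 hx2)⟩
        | exact ⟨3, e1 _ ((pad3 _).1 hx2) ((pbd3 _).1 hx1)⟩
        | exact ⟨3, e2 _ ((pad3 _).1 hx1) ((pcd3 _).1 hx2)⟩
        | exact ⟨3, e2 _ ((pad3 _).1 hx2) ((pcd3 _).1 hx1)⟩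
        | exact ⟨3, e3 _ ((pbd3 _).1 hx1) ((pcd3 _).1 hx2)⟩
        | exact ⟨3, e3 _ ((pbd3 _).1 hx2) ((pcd3 _).1 hx1)⟩
        | exact absurd ((pcd3 _).1 hx2) (d1 _ ((pab3 _).1 hx1))
        | exact absurd ((pcd3 _).1 hx1) (d1 _ ((pab3 _).1 hx2))
        | exact absurd ((pbd3 _).1 hx2) (d2 _ ((pac3 _).1 hx1))
        | exact absurd ((pbd3 _).1 hx1) (d2 _ ((pac3 _).1 hx2))
        | exact absurd ((pbc3 _).1 hx2) (d3 _ ((pad3 _).1 hx1))
        | exact absurd ((pbc3 _).1 hx1) (d3 _ ((pad3 _).1 hx2)))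

end Pool.Agent.Run7.h496
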