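import Pool.Agent.Run7.h496.Fan

/-!
# Cycles and parity
-/

set_option autoImplicit false

namespace Pool.Agent.Run7.h496

open SimpleGraph

variable {V : Type*} {G : SimpleGraph V}

/-- Two paths joined by an edge. -/
theorem Pt.link {A B : Set V} {u v w x : V} {n m : ℕ} (h1 : Pt G A u v n) (h2 : Pt G B w x m)
    (ha : G.Adj v w) (hd : ∀ y ∈ A, y ∉ B) : Pt G (A ∪ B) u x (n + 1 + m) := by
  have hv : v ∉ B := hd v h1.right
  have h3 := h2.cons ha hv
  have h4 := h1.append h3 (by
    rintro y hy (rfl | hy')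
    · rfl
    · exact absurd hy' (hd y hy))
  refine h4.congr ?_ (by ring)
  ext y
  simp only [Set.mem_union, Set.mem_insert_iff]
  constructor
  · rintro (h | rfl | h)
    · exact Or.inl h
    · exact Or.inl h1.right
    · exact Or.inr h
  · rintro (h | h)
    · exact Or.inl h
    · exact Or.inr (Or.inr h)

/-- A cycle of length `n` with vertex set `C`. -/
def Cyc (G : SimpleGraph V) (C : Set V) (n : ℕ) : Prop :=
  ∃ u v m, Pt G C u v m ∧ G.Adj v u ∧ 2 ≤ m ∧ n = m + 1

theorem cyc_of_isCycle {u : V} (c : G.Walk u u) (hc : c.IsCycle) :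
    Cyc G {x | x ∈ c.support} c.length := by
  have h3 := hc.three_le_length
  cases c with
  | nil => simp at h3
  | @cons _ v _ h p =>
    rw [Walk.cons_isCycle_iff] at hc
    refine ⟨v, u, p.length, ⟨p, hc.1, rfl, ?_⟩, h, ?_, by simp⟩
    · intro w
      simp only [Walk.support_cons, List.mem_cons, Set.mem_ofPred_eq]
      constructor
      · intro hw; exact Or.inr hw
      · rintro (rfl | hw)
        · exact p.end_mem_support
        · exact hw
    · simp only [Walk.length_cons] at h3; omega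

/-- The two arcs of a cycle between two of its vertices. -/
theorem Cyc.arcs {C : Set V} {n : ℕ} (hC : Cyc G C n) {u v : V} (hu : u ∈ C) (hv : v ∈ C)
    (huv : u ≠ v) : ∃ A B a b, Pt G A u v a ∧ Pt G B u v b ∧ a + b = n ∧ A ∪ B = C ∧
      ∀ x ∈ A, x ∈ B → x = u ∨ x = v := by
  obtain ⟨s, t, m, hp, hts, hm, rfl⟩ := hC
  have main : ∀ u v, u ∈ C → v ∈ C → u ≠ v → ∀ A1 A2 n1 n2, Pt G A1 s u n1 → Pt G A2 u t n2 →
      n1 + n2 = m → A1 ∪ A2 = C → (∀ x ∈ A1, x ∈ A2 → x = u) → v ∈ A2 →
      ∃ A B a b, Pt G A u v a ∧ Pt G B u v b ∧ a + b = m + 1 ∧ A ∪ B = C ∧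
      ∀ x ∈ A, x ∈ B → x = u ∨ x = v := by
    intro u v hu hv huv A1 A2 n1 n2 h1 h2 h3 h4 h5 hv2
    obtain ⟨B1, B2, m1, m2, k1, k2, k3, k4, k5⟩ := h2.split hv2
    have huB2 : u ∉ B2 := fun h => huv (k5 u k1.left h)
    have hd : ∀ y ∈ B2, y ∉ A1 := by
      intro y hy hy'
      have := h5 y hy' (k4 ▸ Or.inr hy)
      subst this
      exact huB2 hy
    have h6 := (k2.link h1 hts hd).symm
    refine ⟨B1, B2 ∪ A1, m1, _, k1, h6, by omega, ?_, ?_⟩
    · rw [← h4, ← k4]; ext x; simp only [Set.mem_union]; tauto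
    · rintro x hx (hx' | hx')
      · exact Or.inr (k5 x hx hx')
      · exact Or.inl (h5 x hx' (k4 ▸ Or.inl hx))
  obtain ⟨A1, A2, n1, n2, h1, h2, h3, h4, h5⟩ := hp.split hu
  have hv' : v ∈ A1 ∪ A2 := h4 ▸ hv
  rcases hv' with hv1 | hv2
  · -- then u is after v
    obtain ⟨B1, B2, m1, m2, k1, k2, k3, k4, k5⟩ := h1.split hv1
    have h6 : Pt G (B2 ∪ A2) v t (m2 + n2) := k2.append h2 (fun x hx hx' =>
      h5 x (k4 ▸ Or.inr hx) hx')
    obtain ⟨A, B, a, b, g1, g2, g3, g4, g5⟩ := main v u hv hu huv.symm B1 (B2 ∪ A2) m1 (m2 + n2)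
      k1 h6 (by omega) (by rw [← h4, ← k4]; ext x; simp only [Set.mem_union]; tauto)
      (by
        rintro x hx (hx' | hx')
        · exact k5 x hx hx'
        · have h7 := h5 x (k4 ▸ Or.inl hx) hx'
          subst h7
          exact k5 x hx k2.right) (Or.inr h2.left)
    exact ⟨A, B, a, b, g1.symm, g2.symm, g3, g4, fun x hx hx' => (g5 x hx hx').symm⟩
  · exact main u v hu hv huv A1 A2 n1 n2 h1 h2 h3 h4 h5 hv2

/-- A walk which is not a path contains a nontrivial closed walk. -/
theorem walk_split {u v : V} (p : G.Walk u v) (hp : ¬ p.IsPath) :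
    ∃ (x : V) (p1 : G.Walk u x) (c : G.Walk x x) (p2 : G.Walk x v), 0 < c.length ∧
      p1.length + c.length + p2.length = p.length ∧ (∀ w ∈ p1.support, w ∈ p.support) ∧
      (∀ w ∈ c.support, w ∈ p.support) ∧ (∀ w ∈ p2.support, w ∈ p.support) := by
  classical
  induction p with
  | nil => exact absurd Walk.IsPath.nil hp
  | @cons a b c h q ih =>
    by_cases hq : q.IsPath
    · have ha : a ∈ q.support := by
        by_contra ha
        exact hp ((Walk.cons_isPath_iff h q).2 ⟨hq, ha⟩)
      refine ⟨a, Walk.nil, Walk.cons h (q.takeUntil a ha), q.dropUntil a ha, by simp, ?_, ?_, ?_, ?_⟩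
      · have := congrArg Walk.length (Walk.take_spec q ha)
        rw [Walk.length_append] at this
        simp only [Walk.length_nil, Walk.length_cons]
        omega
      · intro w hw
        simp only [Walk.support_nil, List.mem_singleton] at hw
        subst hw; simp
      · intro w hw
        simp only [Walk.support_cons, List.mem_cons] at hw ⊢
        rcases hw with hw | hw
        · exact Or.inl hw
        · exact Or.inr (q.support_takeUntil_subset_support ha hw)
      · intro w hw
        simp only [Walk.support_cons, List.mem_cons]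
        exact Or.inr (q.support_dropUntil_subset_support ha hw)
    · obtain ⟨x, p1, c, p2, h1, h2, h3, h4, h5⟩ := ih hq
      refine ⟨x, Walk.cons h p1, c, p2, h1, by simp only [Walk.length_cons]; omega, ?_, ?_, ?_⟩
      · intro w hw
        simp only [Walk.support_cons, List.mem_cons] at hw ⊢
        rcases hw with hw | hw
        · exact Or.inl hw
        · exact Or.inr (h3 w hw)
      · intro w hw
        simp only [Walk.support_cons, List.mem_cons]
        exact Or.inr (h4 w hw)
      · intro w hw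
        simp only [Walk.support_cons, List.mem_cons]
        exact Or.inr (h5 w hw)

/-- An odd closed walk contains an odd cycle. -/
theorem odd_cycle_of_closed_walk {S : Set V} : ∀ (n : ℕ) {u : V} (w : G.Walk u u),
    w.length = n → Odd n → (∀ x ∈ w.support, x ∈ S) → ∃ C m, Cyc G C m ∧ Odd m ∧ C ⊆ S := by
  intro n
  induction n using Nat.strong_induction_on with
  | _ n ih =>
    intro u w hn hodd hS
    cases w with
    | nil => simp at hn; subst hn; exact absurd hodd (by decide)
    | @cons _ v _ h p =>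
      simp only [Walk.length_cons] at hn
      have hpS : ∀ x ∈ p.support, x ∈ S := fun x hx => hS x (by
        simp only [Walk.support_cons, List.mem_cons]; exact Or.inr hx)
      by_cases hp : p.IsPath
      · have h1 : Pt G {x | x ∈ p.support} v u p.length := ⟨p, hp, rfl, fun _ => Iff.rfl⟩
        have h2 := h1.len_pos h.ne.symm
        refine ⟨_, p.length + 1, ⟨v, u, p.length, h1, h, ?_, rfl⟩, by rw [hn]; exact hodd, hpS⟩
        rcases Nat.lt_or_ge p.length 2 with h3 | h3
        · exfalso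
          have : p.length = 1 := by omega
          rw [← hn, this] at hodd
          exact absurd hodd (by decide)
        · exact h3
      · obtain ⟨x, p1, c, p2, h1, h2, h3, h4, h5⟩ := walk_split p hp
        rcases Nat.even_or_odd c.length with hc | hc
        · refine ih (p1.length + 1 + p2.length) (by omega)
            (Walk.cons h (p1.append p2)) (by simp; omega) ?_ ?_
          · rw [← hn, ← h2] at hodd
            rw [Nat.odd_iff] at hodd ⊢
            rw [Nat.even_iff] at hc
            omega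
          · intro y hy
            simp only [Walk.support_cons, List.mem_cons, Walk.mem_support_append_iff] at hy
            rcases hy with rfl | hy | hy
            · exact hpS _ p.end_mem_support
            · exact hpS _ (h3 _ hy)
            · exact hpS _ (h5 _ hy)
        · exact ih c.length (by omega) c rfl hc (fun y hy => hpS _ (h4 _ hy))

/-- `f` is a proper two-colouring of the set `S`. -/
def Col (G : SimpleGraph V) (S : Set V) (f : V → Bool) : Prop :=
  ∀ a ∈ S, ∀ b ∈ S, G.Adj a b → f a ≠ f b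

/-- A set is two-colourable or contains an odd cycle. -/
theorem col_or_cyc (S : Set V) :
    (∃ f, Col G S f) ∨ ∃ C m, Cyc G C m ∧ Odd m ∧ C ⊆ S := by
  classical
  by_cases h : (G.induce S).Colorable 2
  · left
    obtain ⟨c⟩ := h
    refine ⟨fun v => if hv : v ∈ S then decide (c ⟨v, hv⟩ = 0) else true, ?_⟩
    intro a ha b hb hab
    have h1 : c ⟨a, ha⟩ ≠ c ⟨b, hb⟩ := c.valid (by simpa using hab)
    simp only [ha, hb, dite_true, ne_eq, decide_eq_decide]
    intro h2
    apply h1
    generalize c ⟨a, ha⟩ = p at *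
    generalize c ⟨b, hb⟩ = q at *
    revert p q
    decide
  · right
    rw [two_colorable_iff_forall_loop_even] at h
    push Not at h
    obtain ⟨u, w, hw⟩ := h
    rw [Nat.not_even_iff_odd] at hw
    refine odd_cycle_of_closed_walk w.length (w.map (SimpleGraph.Embedding.induce S).toHom)
      (Walk.length_map _ _) hw ?_
    intro x hx
    rw [Walk.support_map, List.mem_map] at hx
    obtain ⟨y, -, rfl⟩ := hx
    exact y.2

theorem Col.parity {S : Set V} {f : V → Bool} (hf : Col G S f) {A : Set V} {u v : V} {n : ℕ}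
    (h : Pt G A u v n) (hA : A ⊆ S) : f u = f v ↔ Even n := by
  obtain ⟨p, -, rfl, hp⟩ := h
  have hS : ∀ w ∈ p.support, w ∈ S := fun w hw => hA ((hp w).1 hw)
  clear hp
  induction p with
  | nil => simp
  | @cons a b c h q ih =>
    have h1 := ih (fun w hw => hS w (by
      simp only [Walk.support_cons, List.mem_cons]; exact Or.inr hw))
    have h2 : f a ≠ f b := hf a (hS a (by simp)) b (hS b (by
      simp only [Walk.support_cons, List.mem_cons]; exact Or.inr q.start_mem_support)) h
    rw [Walk.length_cons, Nat.even_add_one]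
    have aux : ∀ p q r : Bool, p ≠ q → ((p = r) ↔ ¬ (q = r)) := by decide
    have h3 : (f a = f c) ↔ ¬ (f b = f c) := aux _ _ _ h2
    rw [h3]
    exact not_congr h1

/-- In a two-connected set containing an odd cycle any two distinct vertices are joined by
paths of both parities. -/
theorem Cn2.both [Finite V] {S C : Set V} {n : ℕ} (hS : Cn2 G S) (hC : Cyc G C n) (hn : Odd n)
    (hCS : C ⊆ S) {u v : V} (hu : u ∈ S) (hv : v ∈ S) (huv : u ≠ v) (e : ℕ) :
    ∃ A m, Pt G A u v m ∧ A ⊆ S ∧ m % 2 = e % 2 := by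
  classical
  obtain ⟨s, t, hs, ht, hst⟩ : ∃ s t, s ∈ C ∧ t ∈ C ∧ s ≠ t := by
    obtain ⟨s, t, m, hp, hts, hm, rfl⟩ := hC
    exact ⟨s, t, hp.left, hp.right, hts.ne.symm⟩
  obtain ⟨x1, hx1, x2, hx2, y1, hy1, y2, hy2, A1, A2, n1, n2, h1, h2, h3, h4, h5, h6, h7⟩ :=
    menger_two (G := G) S {u, v} C ⟨u, by simp⟩ (by
      intro c
      obtain ⟨x, hx, hxc⟩ : ∃ x ∈ ({u, v} : Set V), x ≠ c := by
        by_cases h : u = c
        · exact ⟨v, by simp, by rw [← h]; exact huv.symm⟩
        · exact ⟨u, by simp, h⟩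
      obtain ⟨y, hy, hyc⟩ : ∃ y ∈ C, y ≠ c := by
        by_cases h : s = c
        · exact ⟨t, ht, by rw [← h]; exact hst.symm⟩
        · exact ⟨s, hs, h⟩
      have hxS : x ∈ S := by rcases hx with rfl | rfl; exacts [hu, hv]
      obtain ⟨A, m, hA, hA'⟩ := hS.2 c x ⟨hxS, hxc⟩ y ⟨hCS hy, hyc⟩
      exact ⟨x, hx, y, hy, A, m, hA, fun z hz => (hA' hz).1, fun hc => (hA' hc).2 rfl⟩)
  have hx12 : x1 ≠ x2 := by
    rintro rfl; exact h5 _ h1.left h2.left
  have hy12 : y1 ≠ y2 := by
    rintro rfl; exact h5 _ h1.right h2.right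
  obtain ⟨B1, B2, b1, b2, k1, k2, k3, k4, k5⟩ := hC.arcs hy1 hy2 hy12
  have hB1 : B1 ⊆ C := k4 ▸ Set.subset_union_left
  have hB2 : B2 ⊆ C := k4 ▸ Set.subset_union_right
  have main : ∀ B b, Pt G B y1 y2 b → B ⊆ C → ∃ A, Pt G A x1 x2 (n1 + b + n2) ∧ A ⊆ S := by
    intro B b hB hBC
    have g1 := h1.append hB (fun x hx hx' => h6 x hx (hBC hx'))
    have g2 := g1.append h2.symm (by
      rintro x (hx | hx) hx'
      · exact absurd hx' (h5 x hx)
      · exact h7 x hx' (hBC hx))
    refine ⟨_, g2, ?_⟩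
    rintro x ((hx | hx) | hx)
    · exact h3 hx
    · exact hCS (hBC hx)
    · exact h4 hx
  obtain ⟨D1, g1, g1'⟩ := main B1 b1 k1 hB1
  obtain ⟨D2, g2, g2'⟩ := main B2 b2 k2 hB2
  have key : ∃ A m, Pt G A x1 x2 m ∧ A ⊆ S ∧ m % 2 = e % 2 := by
    rw [Nat.odd_iff] at hn
    by_cases h : (n1 + b1 + n2) % 2 = e % 2
    · exact ⟨_, _, g1, g1', h⟩
    · exact ⟨_, _, g2, g2', by omega⟩
  obtain ⟨A, m, hA, hA', hm⟩ := key
  rcases hx1 with rfl | rfl
  · rcases hx2 with rfl | rfl
    · exact absurd rfl hx12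
    · exact ⟨A, m, hA, hA', hm⟩
  · rcases hx2 with rfl | rfl
    · exact ⟨A, m, hA.symm, hA', hm⟩
    · exact absurd rfl hx12

end Pool.Agent.Run7.h496
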