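import Pool.Agent.Run7.h496.Basic
import Pool.Agent.Helper944_HC.Menger

/-!
# Menger's theorem in the set calculus, fans
-/

set_option autoImplicit false

namespace Pool.Agent.Run7.h496

open SimpleGraph

variable {V : Type*} {G : SimpleGraph V}

/-- Any two vertices of `S` are joined by a path inside `S`. -/
def Cn (G : SimpleGraph V) (S : Set V) : Prop :=
  ∀ u ∈ S, ∀ v ∈ S, ∃ A n, Pt G A u v n ∧ A ⊆ S

theorem Cl_walk {S : Finset V} {U : Finset V} (hcl : Helper944_HC.Cl G.Adj S U) {u v : V}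
    (p : G.Walk u v) (hp : ∀ w ∈ p.support, w ∈ S) (hu : u ∈ U) : v ∈ U := by
  induction p with
  | nil => exact hu
  | cons h p ih =>
    apply ih
    · intro w hw
      exact hp w (by rw [Walk.support_cons]; exact List.mem_cons_of_mem _ hw)
    · refine hcl _ hu _ ?_ h
      exact hp _ (by rw [Walk.support_cons]; exact List.mem_cons_of_mem _ p.start_mem_support)

/-- Menger's theorem. -/
theorem menger_k [Finite V] [Nonempty V] (k : ℕ) (S X Y : Set V)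
    (h : ∀ T : Set V, T.ncard < k → ∃ x ∈ X, ∃ y ∈ Y, ∃ A n, Pt G A x y n ∧ A ⊆ S ∧
      ∀ t ∈ T, t ∉ A) :
    ∃ (x y : Fin k → V) (A : Fin k → Set V) (n : Fin k → ℕ),
      (∀ i, x i ∈ X ∧ y i ∈ Y ∧ Pt G (A i) (x i) (y i) (n i) ∧ A i ⊆ S) ∧
      ∀ i j, i ≠ j → ∀ v ∈ A i, v ∉ A j := by
  classical
  have := Fintype.ofFinite V
  let S' : Finset V := S.toFinset
  have hS' : ∀ v, v ∈ S' ↔ v ∈ S := fun v => Set.mem_toFinset
  have hconn : Helper944_HC.Conn G.Adj S' X Y k := by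
    intro T hT hTk U hU hX hcl
    obtain ⟨x, hx, y, hy, A, n, ⟨p, hp1, hp2, hp3⟩, hA, hT'⟩ := h (↑T) (by
      rw [Set.ncard_coe_finset]; exact hTk)
    have hsup : ∀ w ∈ p.support, w ∈ S' \ T := by
      intro w hw
      rw [Finset.mem_sdiff, hS']
      exact ⟨hA ((hp3 w).1 hw), fun h' => hT' w h' ((hp3 w).1 hw)⟩
    exact ⟨y, Cl_walk hcl p hsup (hX x (hsup x p.start_mem_support) hx), hy⟩
  obtain ⟨P, hP, hdisj⟩ := Helper944_HC.menger hconn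
  have key : ∀ i, ∃ x y, x ∈ X ∧ y ∈ Y ∧ ∃ A n, Pt G A x y n ∧ A ⊆ S ∧ ∀ v, v ∈ P i ↔ v ∈ A := by
    intro i
    obtain ⟨h1, h2, h3, ⟨x, hx, hxX⟩, ⟨y, hy, hyY⟩⟩ := hP i
    have hne : P i ≠ [] := by rintro h; rw [h] at hx; simp at hx
    have hx' : (P i).head hne = x := by
      rw [List.head?_eq_some_head hne] at hx; exact Option.some.inj hx
    have hy' : (P i).getLast hne = y := by
      rw [List.getLast?_eq_some_getLast hne] at hy; exact Option.some.inj hy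
    refine ⟨_, _, hx' ▸ hxX, hy' ▸ hyY, {v | v ∈ P i}, _,
      ⟨Walk.ofSupport (P i) hne h2, ?_, rfl, ?_⟩, ?_, fun v => Iff.rfl⟩
    · rw [Walk.isPath_def, Walk.support_ofSupport]; exact h1
    · intro w; rw [Walk.support_ofSupport]; rfl
    · intro v hv; exact (hS' v).1 (h3 v hv)
  choose x y hx hy A n hpt hA hPA using key
  refine ⟨x, y, A, n, fun i => ⟨hx i, hy i, hpt i, hA i⟩, fun i j hij v hv hv' => ?_⟩
  exact hdisj i j hij v ((hPA i v).2 hv) ((hPA j v).2 hv')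

/-- Two disjoint paths between two sets; the paths meet the target set only in their ends. -/
theorem menger_two [Finite V] (S X Y : Set V) (hne : X.Nonempty)
    (h : ∀ c, ∃ x ∈ X, ∃ y ∈ Y, ∃ A n, Pt G A x y n ∧ A ⊆ S ∧ c ∉ A) :
    ∃ x1 ∈ X, ∃ x2 ∈ X, ∃ y1 ∈ Y, ∃ y2 ∈ Y, ∃ A1 A2 n1 n2,
      Pt G A1 x1 y1 n1 ∧ Pt G A2 x2 y2 n2 ∧ A1 ⊆ S ∧ A2 ⊆ S ∧ (∀ v ∈ A1, v ∉ A2) ∧
      (∀ v ∈ A1, v ∈ Y → v = y1) ∧ (∀ v ∈ A2, v ∈ Y → v = y2) := by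
  obtain ⟨x0, hx0⟩ := hne
  have : Nonempty V := ⟨x0⟩
  obtain ⟨x, y, A, n, h1, h2⟩ := menger_k (G := G) 2 S X Y (by
    intro T hT
    obtain ⟨c, hc⟩ : ∃ c, T ⊆ {c} := by
      rcases T.eq_empty_or_nonempty with rfl | ⟨t, ht⟩
      · exact ⟨x0, Set.empty_subset _⟩
      · refine ⟨t, fun s hs => ?_⟩
        have := (Set.ncard_le_one (Set.toFinite T)).1 (by omega) s hs t ht
        exact this
    obtain ⟨x, hx, y, hy, A, n, h3, h4, h5⟩ := h c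
    refine ⟨x, hx, y, hy, A, n, h3, h4, fun t ht hA => ?_⟩
    rw [hc ht] at hA
    exact h5 hA)
  obtain ⟨hx0, hy0, hp0, hA0⟩ := h1 0
  obtain ⟨hx1, hy1, hp1, hA1⟩ := h1 1
  obtain ⟨w0, B0, m0, hw0, hB0, hB0', -, hB0''⟩ := hp0.first hp0.right hy0
  obtain ⟨w1, B1, m1, hw1, hB1, hB1', -, hB1''⟩ := hp1.first hp1.right hy1
  refine ⟨x 0, hx0, x 1, hx1, w0, hw0, w1, hw1, B0, B1, m0, m1, hB0, hB1, hB0'.trans hA0,
    hB1'.trans hA1, fun v hv hv' => h2 0 1 (by decide) v (hB0' hv) (hB1' hv'), hB0'', hB1''⟩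

/-- A `2`-connected set (trivial sets allowed). -/
def Cn2 (G : SimpleGraph V) (S : Set V) : Prop :=
  Cn G S ∧ ∀ c, Cn G (S \ {c})

/-- A two-fan from a vertex `a` to a set `Y` with at least two vertices. -/
theorem Cn2.fan [Finite V] {S Y : Set V} (hS : Cn2 G S) {a b1 b2 : V} (ha : a ∈ S)
    (haY : a ∉ Y) (hb1 : b1 ∈ S) (hb2 : b2 ∈ S) (hY1 : b1 ∈ Y) (hY2 : b2 ∈ Y) (hb : b1 ≠ b2) :
    ∃ y1 ∈ Y, ∃ y2 ∈ Y, ∃ A1 A2 n1 n2,
      Pt G A1 a y1 n1 ∧ Pt G A2 a y2 n2 ∧ A1 ⊆ S ∧ A2 ⊆ S ∧ (∀ v ∈ A1, v ∈ A2 → v = a) ∧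
      (∀ v ∈ A1, v ∈ Y → v = y1) ∧ (∀ v ∈ A2, v ∈ Y → v = y2) := by
  classical
  have hstep : ∀ c, ∃ x ∈ {x | G.Adj a x}, ∃ y ∈ Y, ∃ A n, Pt G A x y n ∧ A ⊆ S \ {a} ∧ c ∉ A := by
    intro c
    obtain ⟨b, hb, hbY, hbc⟩ : ∃ b ∈ S, b ∈ Y ∧ (c = a ∨ b ≠ c) := by
      by_cases hc : b1 = c
      · exact ⟨b2, hb2, hY2, Or.inr (by rw [← hc]; exact hb.symm)⟩
      · exact ⟨b1, hb1, hY1, Or.inr hc⟩
    have hab : a ≠ b := by rintro rfl; exact haY hbY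
    obtain ⟨A, n, hA, hAS⟩ : ∃ A n, Pt G A a b n ∧ (A ⊆ S ∧ (c = a ∨ c ∉ A)) := by
      by_cases hca : c = a
      · obtain ⟨A, n, h1, h2⟩ := hS.1 a ha b hb
        exact ⟨A, n, h1, h2, Or.inl hca⟩
      · obtain ⟨A, n, h1, h2⟩ := hS.2 c a ⟨ha, fun h => hca h.symm⟩ b
          ⟨hb, by rcases hbc with h | h; exacts [absurd h hca, h]⟩
        exact ⟨A, n, h1, fun x hx => (h2 hx).1, Or.inr fun hc => (h2 hc).2 rfl⟩
    obtain ⟨p, hp1, hp2, hp3⟩ := hA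
    cases p with
    | nil => exact absurd rfl hab
    | @cons _ x _ hadj q =>
      rw [Walk.cons_isPath_iff] at hp1
      have hsub : ∀ w ∈ q.support, w ∈ A := fun w hw =>
        (hp3 w).1 (by rw [Walk.support_cons]; exact List.mem_cons_of_mem _ hw)
      refine ⟨x, hadj, b, hbY, {w | w ∈ q.support}, _, ⟨q, hp1.1, rfl, fun _ => Iff.rfl⟩, ?_, ?_⟩
      · intro w hw
        refine ⟨hAS.1 (hsub w hw), ?_⟩
        rintro rfl
        exact hp1.2 hw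
      · intro hc
        rcases hAS.2 with h | h
        · subst h; exact hp1.2 hc
        · exact h (hsub c hc)
  obtain ⟨x, hx, -⟩ := hstep a
  obtain ⟨x1, hx1, x2, hx2, y1, hy1, y2, hy2, A1, A2, n1, n2, h1, h2, h3, h4, h5, h6, h7⟩ :=
    menger_two (G := G) (S \ {a}) {x | G.Adj a x} Y ⟨x, hx⟩ hstep
  have e1 : a ∉ A1 := fun h => (h3 h).2 rfl
  have e2 : a ∉ A2 := fun h => (h4 h).2 rfl
  refine ⟨y1, hy1, y2, hy2, _, _, _, _, h1.cons hx1 e1, h2.cons hx2 e2, ?_, ?_, ?_, ?_, ?_⟩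
  · rintro w (rfl | hw)
    · exact ha
    · exact (h3 hw).1
  · rintro w (rfl | hw)
    · exact ha
    · exact (h4 hw).1
  · rintro w (rfl | hw) hw2
    · rfl
    · rcases hw2 with rfl | hw2
      · rfl
      · exact absurd hw2 (h5 w hw)
  · rintro w (rfl | hw) hwY
    · exact absurd hwY haY
    · exact h6 w hw hwY
  · rintro w (rfl | hw) hwY
    · exact absurd hwY haY
    · exact h7 w hw hwY

/-- Two-fan to two given vertices. -/
theorem Cn2.fan2 [Finite V] {S : Set V} (hS : Cn2 G S) {a b1 b2 : V} (ha : a ∈ S)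
    (hb1 : b1 ∈ S) (hb2 : b2 ∈ S) (hab1 : a ≠ b1) (hab2 : a ≠ b2) (hb : b1 ≠ b2) :
    ∃ A1 A2 n1 n2,
      Pt G A1 a b1 n1 ∧ Pt G A2 a b2 n2 ∧ A1 ⊆ S ∧ A2 ⊆ S ∧ (∀ v ∈ A1, v ∈ A2 → v = a) := by
  obtain ⟨y1, hy1, y2, hy2, A1, A2, n1, n2, h1, h2, h3, h4, h5, h6, h7⟩ :=
    hS.fan (Y := {b1, b2}) ha (by rintro (h | h); exacts [hab1 h, hab2 h]) hb1 hb2
      (by simp) (by simp) hb
  have hy12 : y1 ≠ y2 := by
    rintro rfl
    have := h5 y1 h1.right h2.right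
    subst this
    rcases hy1 with h | h
    · exact hab1 h
    · exact hab2 h
  rcases hy1 with rfl | rfl
  · rcases hy2 with rfl | rfl
    · exact absurd rfl hy12
    · exact ⟨A1, A2, n1, n2, h1, h2, h3, h4, h5⟩
  · rcases hy2 with rfl | rfl
    · exact ⟨A2, A1, n2, n1, h2, h1, h4, h3, fun v hv hv' => h5 v hv' hv⟩
    · exact absurd rfl hy12

end Pool.Agent.Run7.h496
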