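import Pool.Agent.Run7.h496.Cyc

/-!
# A triangle meeting all odd cycles
-/

set_option autoImplicit false

namespace Pool.Agent.Run7.h496

open SimpleGraph

variable {V : Type*} {G : SimpleGraph V}

/-- Reachability inside a set. -/
def Rch (G : SimpleGraph V) (S : Set V) (u v : V) : Prop :=
  ∃ p : G.Walk u v, ∀ w ∈ p.support, w ∈ S

theorem Rch.refl {S : Set V} {u : V} (hu : u ∈ S) : Rch G S u u :=
  ⟨Walk.nil, by simpa using hu⟩

theorem Rch.symm {S : Set V} {u v : V} (h : Rch G S u v) : Rch G S v u := by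
  obtain ⟨p, hp⟩ := h
  exact ⟨p.reverse, by simpa using hp⟩

theorem Rch.trans {S : Set V} {u v w : V} (h : Rch G S u v) (h' : Rch G S v w) :
    Rch G S u w := by
  obtain ⟨p, hp⟩ := h
  obtain ⟨q, hq⟩ := h'
  refine ⟨p.append q, fun x hx => ?_⟩
  rw [Walk.mem_support_append_iff] at hx
  rcases hx with hx | hx
  · exact hp x hx
  · exact hq x hx

theorem Rch.step {S : Set V} {u v w : V} (h : Rch G S u v) (ha : G.Adj v w) (hw : w ∈ S) :
    Rch G S u w := by
  refine h.trans ⟨Walk.cons ha Walk.nil, ?_⟩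
  obtain ⟨p, hp⟩ := h
  intro x hx
  simp only [Walk.support_cons, Walk.support_nil, List.mem_cons, List.not_mem_nil, or_false] at hx
  rcases hx with rfl | rfl
  · exact hp _ p.end_mem_support
  · exact hw

theorem Rch.mem_left {S : Set V} {u v : V} (h : Rch G S u v) : u ∈ S := by
  obtain ⟨p, hp⟩ := h; exact hp _ p.start_mem_support

theorem Rch.mem_right {S : Set V} {u v : V} (h : Rch G S u v) : v ∈ S := by
  obtain ⟨p, hp⟩ := h; exact hp _ p.end_mem_support

theorem Rch.pt {S : Set V} {u v : V} (h : Rch G S u v) : ∃ A n, Pt G A u v n ∧ A ⊆ S := by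
  obtain ⟨p, hp⟩ := h
  obtain ⟨A, n, h1, h2⟩ := Pt.of_walk p
  exact ⟨A, n, h1, fun x hx => hp x (h2 x hx)⟩

theorem Pt.rch {S A : Set V} {u v : V} {n : ℕ} (h : Pt G A u v n) (hA : A ⊆ S) : Rch G S u v := by
  obtain ⟨p, -, -, hp⟩ := h
  exact ⟨p, fun w hw => hA ((hp w).1 hw)⟩

theorem Cn.rch {S : Set V} (h : Cn G S) {u v : V} (hu : u ∈ S) (hv : v ∈ S) : Rch G S u v := by
  obtain ⟨A, n, h1, h2⟩ := h u hu v hv
  exact h1.rch h2

theorem cn_of_root {S : Set V} (s : V) (h : ∀ v ∈ S, Rch G S s v) : Cn G S := fun u hu v hv =>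
  ((h u hu).symm.trans (h v hv)).pt

/-- Leaving a set. -/
theorem Rch.exit {S D : Set V} {u v : V} (h : Rch G S u v) (hu : u ∈ D) (hv : v ∉ D) :
    ∃ a b, a ∈ D ∧ b ∉ D ∧ G.Adj a b ∧ a ∈ S ∧ b ∈ S := by
  obtain ⟨p, hp⟩ := h
  induction p with
  | nil => exact absurd hu hv
  | @cons a b c h q ih =>
    have h1 : a ∈ S := hp a (by simp)
    have h2 : ∀ w ∈ q.support, w ∈ S := fun w hw => hp w (by
      simp only [Walk.support_cons, List.mem_cons]; exact Or.inr hw)
    by_cases hb : b ∈ D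
    · exact ih hb hv h2
    · exact ⟨a, b, hu, hb, h, h1, h2 b q.start_mem_support⟩

theorem Pt.unsnoc {A : Set V} {u v : V} {n : ℕ} (h : Pt G A u v n) (huv : u ≠ v) :
    ∃ B w m, Pt G B u w m ∧ G.Adj w v ∧ A = insert v B ∧ v ∉ B ∧ n = m + 1 := by
  obtain ⟨p, hp1, hp2, hp3⟩ := h.symm
  cases p with
  | nil => exact absurd rfl huv
  | @cons _ w _ h q =>
    rw [Walk.cons_isPath_iff] at hp1
    refine ⟨{x | x ∈ q.support}, w, q.length,
      Pt.symm ⟨q, hp1.1, rfl, fun _ => Iff.rfl⟩, h.symm, ?_, hp1.2, by simpa using hp2.symm⟩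
    ext x
    rw [← hp3 x]
    simp only [Walk.support_cons, List.mem_cons, Set.mem_insert_iff, Set.mem_ofPred_eq]

/-- `4`-connectivity as in the problem. -/
def FourConn [Fintype V] (G : SimpleGraph V) : Prop :=
  5 ≤ Fintype.card V ∧ ∀ S : Finset V, S.card ≤ 3 → (G.induce ((↑S : Set V)ᶜ)).Connected

theorem rch_of_induce {S : Set V} {a b : S} (w : (G.induce S).Walk a b) :
    Rch G S a.1 b.1 := by
  induction w with
  | @nil a => exact Rch.refl a.2
  | @cons a b c h q ih =>
    have h1 : G.Adj a.1 b.1 := by simpa using h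
    exact ((Rch.refl a.2).step h1 b.2).trans ih

theorem FourConn.cn [Fintype V] (h : FourConn G) (S : Finset V) (hS : S.card ≤ 3) :
    Cn G {v | v ∉ S} := by
  intro u hu v hv
  have h1 := (h.2 S hS).preconnected ⟨u, by simpa using hu⟩ ⟨v, by simpa using hv⟩
  obtain ⟨w⟩ := h1
  obtain ⟨p, hp⟩ := rch_of_induce w
  refine Rch.pt ⟨p, ?_⟩
  intro x hx
  simpa using hp x hx

/-- No vertex meets all odd cycles. -/
def Tau2 (G : SimpleGraph V) : Prop := ∀ v, ¬ ∃ f, Col G {w | w ≠ v} f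

/-- The basic construction: a triangle and a centre. -/
theorem HasTOKS.of_triangle {x y z c : V} (hxy : G.Adj x y) (hxz : G.Adj x z) (hyz : G.Adj y z)
    {Ax Ay Az : Set V} {nx ny nz : ℕ} (hx : Pt G Ax c x nx) (hy : Pt G Ay c y ny)
    (hz : Pt G Az c z nz) (ox : Odd nx) (oy : Odd ny) (oz : Odd nz)
    (h1 : ∀ v ∈ Ax, v ∈ Ay → v = c) (h2 : ∀ v ∈ Ax, v ∈ Az → v = c)
    (h3 : ∀ v ∈ Ay, v ∈ Az → v = c) : HasTOKS G := by
  have ncx := hx.ne_of_odd ox
  have ncy := hy.ne_of_odd oy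
  have ncz := hz.ne_of_odd oz
  have a1 : x ∉ Ay := fun h => ncx (h1 x hx.right h).symm
  have a2 : x ∉ Az := fun h => ncx (h2 x hx.right h).symm
  have a3 : y ∉ Ax := fun h => ncy (h1 y h hy.right).symm
  have a4 : y ∉ Az := fun h => ncy (h3 y hy.right h).symm
  have a5 : z ∉ Ax := fun h => ncz (h2 z h hz.right).symm
  have a6 : z ∉ Ay := fun h => ncz (h3 z h hz.right).symm
  refine HasTOKS.of_paths (Pt.edge hxy) (Pt.edge hxz) hx.symm (Pt.edge hyz) hy.symm hz.symm
    (by decide) (by decide) ox (by decide) oy oz ?_ ?_ ?_ ?_ ?_ ?_ ?_ ?_ ?_ ?_ ?_ ?_ h1 h2 h3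
  · rintro v (rfl | rfl) <;> assumption
  · rintro v (rfl | rfl) <;> assumption
  · rintro v hv (rfl | rfl) <;> contradiction
  · rintro v (rfl | rfl) (h | h)
    · exact h
    · exact absurd h hxz.ne
    · exact absurd h hxy.ne.symm
    · exact absurd h hyz.ne
  · rintro v (rfl | rfl) h
    · rfl
    · contradiction
  · rintro v (rfl | rfl) h
    · rfl
    · contradiction
  · rintro v (rfl | rfl) (h | h)
    · exact h
    · exact absurd h hxz.ne
    · rfl
    · rfl
  · rintro v (rfl | rfl) h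
    · contradiction
    · rfl
  · rintro v (rfl | rfl) h
    · rfl
    · contradiction
  · rintro v (rfl | rfl) (h | h)
    · exact absurd h hxy.ne
    · exact h
    · rfl
    · rfl
  · rintro v (rfl | rfl) h
    · contradiction
    · rfl
  · rintro v (rfl | rfl) h
    · contradiction
    · rfl

section four
variable [Fintype V]

theorem FourConn.cn2_pair (h : FourConn G) (x y : V) : Cn2 G {v | v ≠ x ∧ v ≠ y} := by
  classical
  constructor
  · have := h.cn {x, y} ((Finset.card_le_two).trans (by norm_num))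
    convert this using 1
    ext v; simp
  · intro c
    have := h.cn {x, y, c} Finset.card_le_three
    convert this using 1
    ext v
    simp only [Set.mem_sdiff, Set.mem_ofPred_eq, Set.mem_singleton_iff, Finset.mem_insert,
      Finset.mem_singleton]
    tauto

theorem exists_opp (ht : Tau2 G) {x y z : V} {f : V → Bool} (hxy : G.Adj x y)
    (hf : Col G {v | v ≠ x ∧ v ≠ y} f) : ∃ x', x' ≠ x ∧ x' ≠ y ∧ G.Adj x x' ∧ f x' ≠ f z := by
  classical
  by_contra hno
  push Not at hno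
  apply ht y
  refine ⟨fun v => if v = x then !(f z) else f v, ?_⟩
  intro a ha b hb hab
  simp only
  by_cases hax : a = x
  · subst hax
    have hba : b ≠ a := hab.ne.symm
    simp only [if_true, if_neg hba]
    rw [hno b hba hb hab]
    cases f z <;> decide
  · by_cases hbx : b = x
    · subst hbx
      simp only [if_true, if_neg hax]
      rw [hno a hax ha hab.symm]
      cases f z <;> decide
    · simp only [if_neg hax, if_neg hbx]
      exact hf a ⟨hax, ha⟩ b ⟨hbx, hb⟩ hab

/-- If `xyz` is a triangle and `G - {x, y}` is bipartite. -/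
theorem toks_T2 (h : FourConn G) (ht : Tau2 G) {x y z : V} {f : V → Bool} (hxy : G.Adj x y)
    (hxz : G.Adj x z) (hyz : G.Adj y z) (hf : Col G {v | v ≠ x ∧ v ≠ y} f) : HasTOKS G := by
  have hz : z ∈ {v | v ≠ x ∧ v ≠ y} := ⟨hxz.ne.symm, hyz.ne.symm⟩
  obtain ⟨x', h1, h2, h3, h4⟩ := exists_opp (z := z) ht hxy hf
  obtain ⟨y', k1, k2, k3, k4⟩ := exists_opp (z := z) ht hxy.symm (by
    intro a ha b hb; exact hf a ha.symm b hb.symm)
  have hS := h.cn2_pair x y
  have hx'S : x' ∈ {v | v ≠ x ∧ v ≠ y} := ⟨h1, h2⟩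
  have hy'S : y' ∈ {v | v ≠ x ∧ v ≠ y} := ⟨k2, k1⟩
  by_cases hxy' : x' = y'
  · subst hxy'
    obtain ⟨A, n, hA, hAS⟩ := hS.1 x' hx'S z hz
    have hn : Odd n := by
      rw [← Nat.not_even_iff_odd, ← hf.parity hA hAS]; exact h4
    refine HasTOKS.of_triangle hxy hxz hyz (Pt.edge h3.symm) (Pt.edge k3.symm) hA (by decide)
      (by decide) hn ?_ ?_ ?_
    · rintro v (rfl | rfl) (h | h)
      · rfl
      · rfl
      · exact h
      · exact absurd h hxy.ne
    · rintro v (rfl | rfl) h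
      · rfl
      · exact absurd rfl (hAS h).1
    · rintro v (rfl | rfl) h
      · rfl
      · exact absurd rfl (hAS h).2
  · have hx'z : x' ≠ z := by rintro rfl; exact h4 rfl
    obtain ⟨A1, A2, n1, n2, g1, g2, g3, g4, g5⟩ := hS.fan2 hx'S hz hy'S hx'z hxy'
      (by rintro rfl; exact k4 rfl)
    have hn1 : Odd n1 := by
      rw [← Nat.not_even_iff_odd, ← hf.parity g1 g3]; exact h4
    have hn2 : Even n2 := by
      rw [← hf.parity g2 g4]
      revert h4 k4
      generalize f x' = p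
      generalize f y' = q
      generalize f z = r
      revert p q r
      decide
    have hyA2 : y ∉ A2 := fun h => (g4 h).2 rfl
    have g6 := g2.concat k3.symm hyA2
    refine HasTOKS.of_triangle hxy hxz hyz (Pt.edge h3.symm) g6 g1 (by decide)
      hn2.add_one hn1 ?_ ?_ ?_
    · rintro v (rfl | rfl) hv
      · rfl
      · rcases hv with h | h
        · exact absurd h hxy.ne
        · exact absurd rfl (g4 h).1
    · rintro v (rfl | rfl) hv
      · rfl
      · exact absurd rfl (g3 hv).1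
    · rintro v (rfl | hv) hv'
      · exact absurd rfl (g3 hv').2
      · exact g5 v hv' hv

end four

/-- Same colour, `x'` adjacent to `x` and `y`. -/
theorem toks_M2 {H : Set V} {x y z x' z' : V} {f : V → Bool} (hxy : G.Adj x y)
    (hxz : G.Adj x z) (hyz : G.Adj y z) (hH : ∀ v ∈ H, v ≠ x ∧ v ≠ y ∧ v ≠ z) (hc : Cn G H)
    (hf : Col G H f) (hx' : x' ∈ H) (hz' : z' ∈ H) (h1 : G.Adj x x') (h2 : G.Adj y x')
    (h3 : G.Adj z z') (h4 : f x' = f z') : HasTOKS G := by
  obtain ⟨A, n, hA, hAS⟩ := hc x' hx' z' hz'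
  have hn : Even n := (hf.parity hA hAS).1 h4
  have hzA : z ∉ A := fun h => (hH z (hAS h)).2.2 rfl
  refine HasTOKS.of_triangle hxy hxz hyz (Pt.edge h1.symm) (Pt.edge h2.symm)
    (hA.concat h3.symm hzA) (by decide) (by decide) hn.add_one ?_ ?_ ?_
  · rintro v (rfl | rfl) (h | h)
    · rfl
    · rfl
    · exact h
    · exact absurd h hxy.ne
  · rintro v (rfl | rfl) (h | h)
    · rfl
    · rfl
    · exact absurd h hxz.ne
    · exact absurd rfl (hH v (hAS h)).1
  · rintro v (rfl | rfl) (h | h)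
    · rfl
    · rfl
    · exact absurd h hyz.ne
    · exact absurd rfl (hH v (hAS h)).2.1

/-- The fan construction. -/
theorem toks_M3 [Finite V] {H L E : Set V} {x y z x' y' z' s : V} {f : V → Bool} {m : ℕ}
    (hxy : G.Adj x y) (hxz : G.Adj x z) (hyz : G.Adj y z)
    (hH : ∀ v ∈ H, v ≠ x ∧ v ≠ y ∧ v ≠ z) (hL : Cn2 G L) (hLH : L ⊆ H)
    (hf : Col G H f) (hx' : x' ∈ L) (hy' : y' ∈ L) (hs : s ∈ L) (hxy' : x' ≠ y') (hxs : x' ≠ s)
    (hys : y' ≠ s) (hE : Pt G E s z' m) (hEH : E ⊆ H) (hEL : ∀ v ∈ E, v ∈ L → v = s)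
    (h1 : G.Adj x x') (h2 : G.Adj y y') (h3 : G.Adj z z') (h4 : f x' = f y') (h5 : f x' = f z') :
    HasTOKS G := by
  obtain ⟨A1, A2, n1, n2, g1, g2, g3, g4, g5⟩ := hL.fan2 hx' hy' hs hxy' hxs hys
  have g6 := g2.append hE (fun v hv hv' => hEL v hv' (g4 hv))
  have g6' : A2 ∪ E ⊆ H := Set.union_subset (g4.trans hLH) hEH
  have g7 : ∀ v ∈ A1, v ∈ A2 ∪ E → v = x' := by
    rintro v hv (hv' | hv')
    · exact g5 v hv hv'
    · have := hEL v hv' (g3 hv)
      subst this
      exact g5 v hv g2.right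
  have e1 : Even n1 := (hf.parity g1 (g3.trans hLH)).1 h4
  have e2 : Even (n2 + m) := (hf.parity g6 g6').1 h5
  have y1 : y ∉ A1 := fun h => (hH y (hLH (g3 h))).2.1 rfl
  have z1 : z ∉ A2 ∪ E := fun h => (hH z (g6' h)).2.2 rfl
  refine HasTOKS.of_triangle hxy hxz hyz (Pt.edge h1.symm) (g1.concat h2.symm y1)
    (g6.concat h3.symm z1) (by decide) e1.add_one e2.add_one ?_ ?_ ?_
  · rintro v (rfl | rfl) (h | h)
    · rfl
    · rfl
    · exact absurd h hxy.ne
    · exact absurd rfl (hH v (hLH (g3 h))).1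
  · rintro v (rfl | rfl) (h | h)
    · rfl
    · rfl
    · exact absurd h hxz.ne
    · exact absurd rfl (hH v (g6' h)).1
  · rintro v (rfl | hv) (h | h)
    · exact absurd h hyz.ne
    · exact absurd rfl (hH v (g6' h)).2.1
    · subst h; exact absurd rfl (hH v (hLH (g3 hv))).2.2
    · exact g7 v hv h

/-- `D` is a set of vertices of `H` with at most the vertex `s` as neighbour in `H`. -/
def Leaf (G : SimpleGraph V) (H D : Set V) (s : V) : Prop :=
  D.Nonempty ∧ D ⊆ H ∧ s ∈ H ∧ s ∉ D ∧ ∀ d ∈ D, ∀ v ∈ H, G.Adj d v → v ∈ D ∨ v = s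

theorem exists_leaf [Finite V] {H : Set V} {a b : V} (ha : a ∈ H) (hb : b ∈ H) (hab : a ≠ b) :
    ∃ D s, Leaf G H D s ∧ ∀ D' s', Leaf G H D' s' → D.ncard ≤ D'.ncard := by
  classical
  have hex : ∃ n D s, Leaf G H D s ∧ D.ncard = n := by
    refine ⟨_, H \ {a}, a, ⟨⟨b, hb, fun h => hab h.symm⟩, Set.sdiff_subset, ha,
      fun h => h.2 rfl, ?_⟩, rfl⟩
    intro d hd v hv _
    by_cases h : v = a
    · exact Or.inr h
    · exact Or.inl ⟨hv, h⟩
  obtain ⟨D, s, h1, h2⟩ := Nat.find_spec hex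
  exact ⟨D, s, h1, fun D' s' h' => h2 ▸ Nat.find_min' hex ⟨D', s', h', rfl⟩⟩

theorem Leaf.cn2 [Finite V] {H D : Set V} {s : V} (h : Leaf G H D s)
    (hmin : ∀ D' s', Leaf G H D' s' → D.ncard ≤ D'.ncard) (hH : Cn G H) :
    Cn2 G (insert s D) := by
  classical
  obtain ⟨⟨d0, hd0⟩, hDH, hsH, hsD, hN⟩ := h
  have hD : Cn G D := by
    apply cn_of_root d0
    by_contra hno
    push Not at hno
    obtain ⟨v, hv, hv'⟩ := hno
    have hleaf : Leaf G H {w | w ∈ D ∧ ¬ Rch G D d0 w} s := by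
      refine ⟨⟨v, hv, hv'⟩, fun w hw => hDH hw.1, hsH, fun h => hsD h.1, ?_⟩
      rintro d ⟨hd, hd'⟩ w hw hdw
      rcases hN d hd w hw hdw with h1 | h1
      · left
        exact ⟨h1, fun h2 => hd' (h2.step hdw.symm hd)⟩
      · exact Or.inr h1
    have h1 := hmin _ _ hleaf
    have h2 : {w | w ∈ D ∧ ¬ Rch G D d0 w}.ncard < D.ncard := by
      apply Set.ncard_lt_ncard _ (Set.toFinite D)
      refine ⟨fun w hw => hw.1, fun h3 => ?_⟩
      exact (h3 hd0).2 (Rch.refl hd0)
    omega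
  have hL : Cn G (insert s D) := by
    obtain ⟨a, b, ha, hb, hab, -, hbH⟩ := (hH.rch (hDH hd0) hsH).exit hd0 hsD
    have hbs : b = s := by
      rcases hN a ha b hbH hab with h | h
      · exact absurd h hb
      · exact h
    subst hbs
    apply cn_of_root b
    rintro v (rfl | hv)
    · exact Rch.refl (Set.mem_insert _ _)
    · have h1 : Rch G (insert b D) b a :=
        (Rch.refl (Set.mem_insert _ _)).step hab.symm (Set.mem_insert_of_mem _ ha)
      obtain ⟨p, hp⟩ := hD.rch ha hv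
      exact h1.trans ⟨p, fun w hw => Set.mem_insert_of_mem _ (hp w hw)⟩
  refine ⟨hL, fun t => ?_⟩
  by_cases hts : t = s
  · subst hts
    have : insert t D \ {t} = D := by
      ext w
      simp only [Set.mem_sdiff, Set.mem_insert_iff, Set.mem_singleton_iff]
      constructor
      · rintro ⟨h1 | h1, h2⟩
        · exact absurd h1 h2
        · exact h1
      · intro h; exact ⟨Or.inr h, fun h' => hsD (h' ▸ h)⟩
    rw [this]; exact hD
  · by_cases htD : t ∈ D
    · have hsL : s ∈ insert s D \ {t} := ⟨Set.mem_insert _ _, fun h => hts h.symm⟩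
      apply cn_of_root s
      by_contra hno
      push Not at hno
      obtain ⟨v, hv, hv'⟩ := hno
      have hvs : v ≠ s := by
        rintro rfl; exact hv' (Rch.refl hsL)
      have hleaf : Leaf G H {w | w ∈ insert s D \ {t} ∧ ¬ Rch G (insert s D \ {t}) s w} t := by
        have hsub : ∀ w, w ∈ {w | w ∈ insert s D \ {t} ∧ ¬ Rch G (insert s D \ {t}) s w} →
            w ∈ D := by
          rintro w ⟨⟨rfl | hw, -⟩, hw'⟩
          · exact absurd (Rch.refl hsL) hw'
          · exact hw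
        refine ⟨⟨v, hv, hv'⟩, fun w hw => hDH (hsub w hw), hDH htD, fun h => h.1.2 rfl, ?_⟩
        rintro d hd w hw hdw
        by_cases hwt : w = t
        · exact Or.inr hwt
        · left
          have hwL : w ∈ insert s D \ {t} := by
            refine ⟨?_, hwt⟩
            rcases hN d (hsub d hd) w hw hdw with h1 | h1
            · exact Or.inr h1
            · exact Or.inl h1
          exact ⟨hwL, fun h2 => hd.2 (h2.step hdw.symm hd.1)⟩
      have h1 := hmin _ _ hleaf
      have h2 : {w | w ∈ insert s D \ {t} ∧ ¬ Rch G (insert s D \ {t}) s w}.ncard < D.ncard := by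
        apply Set.ncard_lt_ncard _ (Set.toFinite D)
        refine ⟨?_, fun h3 => (h3 htD).1.2 rfl⟩
        rintro w ⟨⟨rfl | hw, -⟩, hw'⟩
        · exact absurd (Rch.refl hsL) hw'
        · exact hw
      omega
    · have : insert s D \ {t} = insert s D := by
        ext w
        simp only [Set.mem_sdiff, Set.mem_insert_iff, Set.mem_singleton_iff]
        constructor
        · rintro ⟨h1, -⟩; exact h1
        · intro h
          refine ⟨h, ?_⟩
          rintro rfl
          rcases h with h | h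
          · exact hts h
          · exact htD h
      rw [this]; exact hL

end Pool.Agent.Run7.h496
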