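import Pool.Agent.Run7.h496.Tri

/-!
# A triangle meeting all odd cycles: end of the proof
-/

set_option autoImplicit false

namespace Pool.Agent.Run7.h496

open SimpleGraph

variable {V : Type*} {G : SimpleGraph V}

theorem Leaf.path [Finite V] {H D : Set V} {s z' : V} (h : Leaf G H D s) (hH : Cn G H)
    (hz : z' ∈ H) (hzD : z' ∉ D) :
    ∃ E m, Pt G E s z' m ∧ E ⊆ H ∧ ∀ v ∈ E, v ∈ insert s D → v = s := by
  classical
  obtain ⟨-, hDH, hsH, hsD, hN⟩ := h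
  obtain ⟨A, n, hA, hAH⟩ := hH z' hz s hsH
  obtain ⟨w, B, m, hw, hB, hBA, -, hB'⟩ := hA.first hA.right (Y := insert s D)
    (Set.mem_insert _ _)
  have hws : w = s := by
    by_contra hne
    have hwD : w ∈ D := by
      rcases hw with h | h
      · exact absurd h hne
      · exact h
    have hzw : z' ≠ w := by rintro rfl; exact hzD hwD
    obtain ⟨B1, v, m1, k1, k2, k3, k4, k5⟩ := hB.unsnoc hzw
    have hvB : v ∈ B := k3 ▸ Set.mem_insert_of_mem _ k1.right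
    have h1 : v ∈ insert s D := by
      rcases hN w hwD v (hAH (hBA hvB)) k2.symm with h | h
      · exact Or.inr h
      · exact Or.inl h
    have := hB' v hvB h1
    subst this
    exact k4 k1.right
  subst hws
  exact ⟨B, m, hB.symm, hBA.trans hAH, hB'⟩

section four
variable [Fintype V]

theorem leaf_attached (h : FourConn G) {H D : Set V} {x y z s : V}
    (hH : ∀ v, v ∈ H ↔ v ≠ x ∧ v ≠ y ∧ v ≠ z) (hxy : x ≠ y) (hxz : x ≠ z)
    (hD : Leaf G H D s) : ∃ d ∈ D, G.Adj x d := by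
  classical
  obtain ⟨⟨d0, hd0⟩, hDH, hsH, hsD, hN⟩ := hD
  have hcn := h.cn {s, y, z} Finset.card_le_three
  have hd0' := (hH d0).1 (hDH hd0)
  have hs' := (hH s).1 hsH
  have h1 : d0 ∈ {v | v ∉ ({s, y, z} : Finset V)} := by
    simp only [Finset.mem_insert, Finset.mem_singleton, not_or, Set.mem_ofPred_eq]
    exact ⟨fun h => hsD (h ▸ hd0), hd0'.2.1, hd0'.2.2⟩
  have h2 : x ∈ {v | v ∉ ({s, y, z} : Finset V)} := by
    simp only [Finset.mem_insert, Finset.mem_singleton, not_or, Set.mem_ofPred_eq]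
    exact ⟨hs'.1.symm, hxy, hxz⟩
  obtain ⟨a, b, ha, hb, hab, -, hb'⟩ := (hcn.rch h1 h2).exit hd0
    (fun h => ((hH x).1 (hDH h)).1 rfl)
  simp only [Finset.mem_insert, Finset.mem_singleton, not_or, Set.mem_ofPred_eq] at hb'
  by_cases hbx : b = x
  · subst hbx; exact ⟨a, ha, hab.symm⟩
  · exfalso
    have hbH : b ∈ H := (hH b).2 ⟨hbx, hb'.2.1, hb'.2.2⟩
    rcases hN a ha b hbH hab with h | h
    · exact hb h
    · exact hb'.1 h

/-- the core of the argument -/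
theorem toks_core {H D : Set V} {x y z s x' y' : V} {f : V → Bool} (hxy : G.Adj x y)
    (hxz : G.Adj x z) (hyz : G.Adj y z) (hH : ∀ v ∈ H, v ≠ x ∧ v ≠ y ∧ v ≠ z) (hc : Cn G H)
    (hf : Col G H f) (hD : Leaf G H D s) (hL : Cn2 G (insert s D))
    (hx' : x' ∈ D) (hy' : y' ∈ D) (h1 : G.Adj x x') (h2 : G.Adj y y') (h4 : f x' = f y')
    (hz : ∃ z' ∈ H, G.Adj z z' ∧ f z' = f x') : HasTOKS G := by
  obtain ⟨z', hz', h3, h5⟩ := hz
  have hDH := hD.2.1
  have hsD := hD.2.2.2.1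
  have hsH := hD.2.2.1
  by_cases hxy' : x' = y'
  · subst hxy'
    exact toks_M2 hxy hxz hyz hH hc hf (hDH hx') hz' h1 h2 h3 h5.symm
  by_cases hxz' : x' = z'
  · subst hxz'
    exact toks_M2 hxz hxy hyz.symm (fun v hv => ⟨(hH v hv).1, (hH v hv).2.2, (hH v hv).2.1⟩)
      hc hf hz' (hDH hy') h1 h3 h2 h4
  by_cases hyz' : y' = z'
  · subst hyz'
    exact toks_M2 hyz hxy.symm hxz.symm (fun v hv => ⟨(hH v hv).2.1, (hH v hv).2.2, (hH v hv).1⟩)
      hc hf hz' (hDH hx') h2 h3 h1 h5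
  have hLH : insert s D ⊆ H := by
    rintro v (rfl | hv)
    · exact hsH
    · exact hDH hv
  by_cases hzD : z' ∈ D
  · refine toks_M3 (s := z') (E := {z'}) hxy hxz hyz hH hL hLH hf (Or.inr hx') (Or.inr hy')
      (Or.inr hzD) hxy' hxz' hyz' (Pt.nil z') (by
        rintro v rfl; exact hz') (fun v hv _ => hv) h1 h2 h3 h4 h5.symm
  · obtain ⟨E, m, hE, hEH, hEL⟩ := hD.path hc hz' hzD
    exact toks_M3 hxy hxz hyz hH hL hLH hf (Or.inr hx') (Or.inr hy')
      (Or.inl rfl) hxy' (by rintro rfl; exact hsD hx') (by rintro rfl; exact hsD hy')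
      hE hEH hEL h1 h2 h3 h4 h5.symm

theorem toks_T4_aux (h : FourConn G) {H : Set V} {x y z : V} {f : V → Bool}
    (hxy : G.Adj x y) (hxz : G.Adj x z) (hyz : G.Adj y z)
    (hH : ∀ v, v ∈ H ↔ v ≠ x ∧ v ≠ y ∧ v ≠ z) (hf : Col G H f)
    (hx : ∀ b, ∃ v ∈ H, G.Adj x v ∧ f v = b) (hy : ∀ b, ∃ v ∈ H, G.Adj y v ∧ f v = b)
    (hz : ∀ b, ∃ v ∈ H, G.Adj z v ∧ f v = b) : HasTOKS G := by
  classical
  have hc : Cn G H := by
    have := h.cn {x, y, z} Finset.card_le_three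
    convert this using 1
    ext v
    simp [hH v]
  obtain ⟨a, ha, -, hfa⟩ := hx true
  obtain ⟨b, hb, -, hfb⟩ := hx false
  have hab : a ≠ b := by rintro rfl; rw [hfa] at hfb; exact absurd hfb (by decide)
  obtain ⟨D, s, hD, hmin⟩ := exists_leaf (G := G) ha hb hab
  have hL := hD.cn2 hmin hc
  obtain ⟨x', hx'D, hx'⟩ := leaf_attached h hH hxy.ne hxz.ne hD
  obtain ⟨y', hy'D, hy'⟩ := leaf_attached (x := y) (y := x) (z := z) h
    (fun v => by rw [hH v]; tauto) hxy.ne.symm hyz.ne hD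
  obtain ⟨z', hz'D, hz'⟩ := leaf_attached (x := z) (y := x) (z := y) h
    (fun v => by rw [hH v]; tauto) hxz.ne.symm hyz.ne.symm hD
  by_cases h1 : f x' = f y'
  · exact toks_core hxy hxz hyz (fun v hv => (hH v).1 hv) hc hf hD hL hx'D hy'D hx' hy' h1
      (hz (f x'))
  by_cases h2 : f x' = f z'
  · exact toks_core hxz hxy hyz.symm (fun v hv => ⟨((hH v).1 hv).1, ((hH v).1 hv).2.2,
      ((hH v).1 hv).2.1⟩) hc hf hD hL hx'D hz'D hx' hz' h2 (hy (f x'))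
  have h3 : f y' = f z' := by
    revert h1 h2
    generalize f x' = p; generalize f y' = q; generalize f z' = r
    revert p q r
    decide
  exact toks_core hyz hxy.symm hxz.symm (fun v hv => ⟨((hH v).1 hv).2.1, ((hH v).1 hv).2.2,
      ((hH v).1 hv).1⟩) hc hf hD hL hy'D hz'D hy' hz' h3 (hx (f y'))

omit [Fintype V] in
/-- Extending a colouring to `z`. -/
theorem col_extend {x y z : V} {f : V → Bool} {b : Bool}
    (hf : Col G {v | v ≠ x ∧ v ≠ y ∧ v ≠ z} f)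
    (hno : ¬ ∃ v ∈ {v | v ≠ x ∧ v ≠ y ∧ v ≠ z}, G.Adj z v ∧ f v = b) :
    ∃ g, Col G {v | v ≠ x ∧ v ≠ y} g := by
  classical
  push Not at hno
  refine ⟨fun v => if v = z then b else f v, ?_⟩
  rintro a ⟨ha1, ha2⟩ c ⟨hc1, hc2⟩ hac
  simp only
  by_cases haz : a = z
  · subst haz
    rw [if_pos rfl, if_neg hac.ne.symm]
    exact fun h' => hno c ⟨hc1, hc2, hac.ne.symm⟩ hac h'.symm
  · by_cases hcz : c = z
    · subst hcz
      rw [if_pos rfl, if_neg hac.ne]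
      exact fun h' => hno a ⟨ha1, ha2, hac.ne⟩ hac.symm h'
    · rw [if_neg haz, if_neg hcz]
      exact hf a ⟨ha1, ha2, haz⟩ c ⟨hc1, hc2, hcz⟩ hac

/-- **A triangle meeting all odd cycles.** -/
theorem toks_T4 (h : FourConn G) (ht : Tau2 G) {x y z : V}
    (hxy : G.Adj x y) (hxz : G.Adj x z) (hyz : G.Adj y z)
    (hf : ∃ f, Col G {v | v ≠ x ∧ v ≠ y ∧ v ≠ z} f) : HasTOKS G := by
  obtain ⟨f, hf⟩ := hf
  by_cases hz : ∀ b, ∃ v ∈ {v | v ≠ x ∧ v ≠ y ∧ v ≠ z}, G.Adj z v ∧ f v = b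
  swap
  · push Not at hz
    obtain ⟨b, hb⟩ := hz
    obtain ⟨g, hg⟩ := col_extend hf (b := b) (by push Not; exact hb)
    exact toks_T2 h ht hxy hxz hyz hg
  by_cases hy : ∀ b, ∃ v ∈ {v | v ≠ x ∧ v ≠ y ∧ v ≠ z}, G.Adj y v ∧ f v = b
  swap
  · push Not at hy
    obtain ⟨b, hb⟩ := hy
    have e : ({v | v ≠ x ∧ v ≠ y ∧ v ≠ z} : Set V) = {v | v ≠ x ∧ v ≠ z ∧ v ≠ y} := by
      ext v; simp only [Set.mem_ofPred_eq]; tauto
    rw [e] at hf hb
    obtain ⟨g, hg⟩ := col_extend hf (b := b) (by push Not; exact hb)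
    exact toks_T2 h ht hxz hxy hyz.symm hg
  by_cases hx : ∀ b, ∃ v ∈ {v | v ≠ x ∧ v ≠ y ∧ v ≠ z}, G.Adj x v ∧ f v = b
  swap
  · push Not at hx
    obtain ⟨b, hb⟩ := hx
    have e : ({v | v ≠ x ∧ v ≠ y ∧ v ≠ z} : Set V) = {v | v ≠ y ∧ v ≠ z ∧ v ≠ x} := by
      ext v; simp only [Set.mem_ofPred_eq]; tauto
    rw [e] at hf hb
    obtain ⟨g, hg⟩ := col_extend hf (b := b) (by push Not; exact hb)
    exact toks_T2 h ht hyz hxy.symm hxz.symm hg
  exact toks_T4_aux h hxy hxz hyz (fun v => Iff.rfl) hf hx hy hz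

/-- **Two triangles with a common edge.** -/
theorem toks_diamond (h : FourConn G) (ht : Tau2 G) {x y p q : V} (hxy : G.Adj x y)
    (hxp : G.Adj x p) (hyp : G.Adj y p) (hxq : G.Adj x q) (hyq : G.Adj y q) (hpq : p ≠ q) :
    HasTOKS G := by
  have hp : p ∈ {v | v ≠ x ∧ v ≠ y} := ⟨hxp.ne.symm, hyp.ne.symm⟩
  have hq : q ∈ {v | v ≠ x ∧ v ≠ y} := ⟨hxq.ne.symm, hyq.ne.symm⟩
  rcases col_or_cyc (G := G) {v | v ≠ x ∧ v ≠ y} with ⟨f, hf⟩ | ⟨C, n, hC, hn, hCS⟩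
  · exact toks_T2 h ht hxy hxp hyp hf
  · obtain ⟨A, m, hA, hAS, hm⟩ := (h.cn2_pair x y).both hC hn hCS hq hp hpq.symm 1
    have hodd : Odd m := by rw [Nat.odd_iff]; omega
    refine HasTOKS.of_triangle hxy hxp hyp (Pt.edge hxq.symm) (Pt.edge hyq.symm) hA
      (by decide) (by decide) hodd ?_ ?_ ?_
    · rintro v (rfl | rfl) (h | h)
      · rfl
      · rfl
      · exact h
      · exact absurd h hxy.ne
    · rintro v (rfl | rfl) h
      · rfl
      · exact absurd rfl (hAS h).1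
    · rintro v (rfl | rfl) h
      · rfl
      · exact absurd rfl (hAS h).2

end four

theorem col_of_colorable {S : Set V} (h : (G.induce S).Colorable 2) : ∃ f, Col G S f := by
  classical
  obtain ⟨c⟩ := h
  refine ⟨fun v => if hv : v ∈ S then decide (c ⟨v, hv⟩ = 0) else true, ?_⟩
  intro a ha b hb hab
  have h1 : c ⟨a, ha⟩ ≠ c ⟨b, hb⟩ := c.valid (by simpa using hab)
  simp only [ha, hb, dite_true, ne_eq, decide_eq_decide]
  intro h2
  apply h1
  generalize c ⟨a, ha⟩ = p at *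
  generalize c ⟨b, hb⟩ = q at *
  revert p q
  decide

theorem tau2_of_not_colorable (h : ∀ v : V, ¬ (G.induce {w : V | w ≠ v}).Colorable 2) :
    Tau2 G := by
  rintro v ⟨f, hf⟩
  apply h v
  exact (Coloring.mk (G := G.induce {w : V | w ≠ v}) (fun w => f w.1) (by
    intro a b hab
    exact hf a.1 a.2 b.1 b.2 (by simpa using hab))).colorable

end Pool.Agent.Run7.h496
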